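import Pool.Agent.H98.Tri.SMD

/-!
# Project TRI, module SM: smoothing of circle convolutions
-/

set_option autoImplicit false

open MeasureTheory Set Complex Metric Filter Topology
open scoped Real ENNReal NNReal FourierTransform ComplexConjugate

namespace Pool.Agent.H24.Tri

theorem sm (b : ℝ → ℝ) (hb : Measurable b) (hb0 : ∀ θ, 0 ≤ b θ) (M : ℝ) (hbM : ∀ θ, b θ ≤ M)
    (c : ℂ) (hc : c ≠ 0)
    (φ : ℂ → ℝ) (hφ : Continuous φ) (hφ0 : ∀ x, 0 ≤ φ x) (hφe : ∀ x, φ (-x) = φ x)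
    (hφ1 : ∫ x, φ x = 1) (hφs : ∀ x, 1 ≤ ‖x‖ → φ x = 0) :
    ∀ ε : ℝ, 0 < ε → ∃ r₀ : ℝ, 0 < r₀ ∧ ∀ r : ℝ, 0 < r → r ≤ r₀ → ∀ F : ℂ → ℂ, Measurable F →
      (∃ K : ℝ, ∀ x, ‖F x‖ ≤ K) → (∃ D : ℝ, ∀ x, D ≤ ‖x‖ → F x = 0) →
      ∫⁻ x, ‖circConv b c (fun y => F y - moll φ r F y) x‖ₑ ^ 2 ≤
        ENNReal.ofReal ε * ∫⁻ x, ‖F x‖ₑ ^ 2 := by
  intro ε hε
  have hpi := Real.pi_pos
  have hM0 : 0 ≤ M := (hb0 0).trans (hbM 0)
  have hbM' : ∀ θ, |b θ| ≤ M := fun θ => by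
    rw [abs_of_nonneg (hb0 θ)]
    exact hbM θ
  set s : ℝ := Real.sqrt ε with hs
  have hs0 : 0 < s := Real.sqrt_pos.2 hε
  have hss : s ^ 2 = ε := Real.sq_sqrt hε.le
  -- the decay of the multiplier
  obtain ⟨A, hA⟩ : ∃ A : ℝ, ∀ ξ : ℂ, A ≤ ‖ξ‖ → ‖smM c (fun θ => (b θ : ℂ)) ξ‖ ≤ s / 2 := by
    have h1 := smM_tendsto b hb M hbM' c hc
    rw [Metric.tendsto_nhds] at h1
    have h2 := h1 (s / 2) (by positivity)
    rw [← Metric.cobounded_eq_cocompact] at h2
    obtain ⟨A, -, hA⟩ := (hasBasis_cobounded_norm.eventually_iff).1 h2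
    refine ⟨A, fun ξ hξ => ?_⟩
    have h3 := hA (x := ξ) hξ
    rw [dist_zero_right] at h3
    exact h3.le
  set r₀ : ℝ := s / ((2 * π) ^ 2 * (M + 1) * (|A| + 1)) with hr₀
  have hr₀0 : 0 < r₀ := by positivity
  refine ⟨r₀, hr₀0, ?_⟩
  rintro r hr hrr F hF ⟨K, hK⟩ ⟨D, hD⟩
  -- integrability of `F`
  have hFi : Integrable F := by
    have h1 : IntegrableOn F (closedBall (0 : ℂ) |D|) :=
      Measure.integrableOn_of_bounded (M := K)
        (measure_closedBall_lt_top.ne) hF.aestronglyMeasurable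
        (Eventually.of_forall fun x => hK x)
    refine (integrableOn_iff_integrable_of_support_subset ?_).1 h1
    intro x hx
    by_contra h
    apply hx
    rw [mem_closedBall_zero_iff, not_le] at h
    exact hD x ((le_abs_self D).trans h.le)
  have hmi := moll_integrable φ hφ hφs r hr F hFi
  have hmm := moll_measurable φ hφ r F hF
  have hmb := moll_bound φ hφ hφ0 hφ1 hφs r hr F K hK
  set G : ℂ → ℂ := fun y => F y - moll φ r F y with hG
  have hGi : Integrable G := hFi.sub hmi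
  have hGm : Measurable G := hF.sub hmm
  have hGb : ∀ x, ‖G x‖ ≤ K + K := fun x => (norm_sub_le _ _).trans (add_le_add (hK x) (hmb x))
  have hCi := circConv_integrable b hb M hbM' c G hGm hGi
  have hCL := sm_memLp hCi _ (circConv_bound b M hbM' c G (K + K) hGb)
  rw [← sm_plancherel _ hCi hCL, ← sm_plancherel F hFi (sm_memLp hFi K hK),
    ← lintegral_const_mul' _ _ ENNReal.ofReal_ne_top]
  refine lintegral_mono fun ξ => ?_
  rw [circConv_fourier b hb M hbM' c G hGm hGi ξ, hG, sm_fourier_sub F _ hFi hmi ξ,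
    moll_fourier φ hφ hφs r hr F hFi ξ]
  have h1 : smM c (fun θ => (b θ : ℂ)) ξ * (𝓕 F ξ - 𝓕 (phr φ r) ξ * 𝓕 F ξ) =
      (smM c (fun θ => (b θ : ℂ)) ξ * (1 - 𝓕 (phr φ r) ξ)) * 𝓕 F ξ := by ring
  rw [h1, enorm_mul, mul_pow]
  refine mul_le_mul_left ?_ _
  have h2 : ‖smM c (fun θ => (b θ : ℂ)) ξ * (1 - 𝓕 (phr φ r) ξ)‖ ≤ s := by
    rw [norm_mul]
    rcases le_or_gt A ‖ξ‖ with hξ | hξ
    · have h3 : ‖1 - 𝓕 (phr φ r) ξ‖ ≤ 2 := by
        refine (norm_sub_le _ _).trans ?_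
        rw [norm_one]
        have := phr_fourier_le φ hφ0 hφ1 r hr ξ
        linarith
      calc ‖smM c (fun θ => (b θ : ℂ)) ξ‖ * ‖1 - 𝓕 (phr φ r) ξ‖ ≤ (s / 2) * 2 :=
            mul_le_mul (hA ξ hξ) h3 (norm_nonneg _) (by positivity)
        _ = s := by ring
    · have h3 := phr_fourier_near φ hφ hφ0 hφ1 hφs r hr ξ
      have h4 : ‖smM c (fun θ => (b θ : ℂ)) ξ‖ ≤ 2 * π * M := by
        refine (smM_le c _ ξ).trans ?_
        have h5 : ∫ θ in Ioc 0 (2 * π), ‖(b θ : ℂ)‖ ≤ ∫ θ in Ioc 0 (2 * π), M := by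
          refine setIntegral_mono_on ?_ ?_ measurableSet_Ioc fun θ _ => ?_
          · refine Measure.integrableOn_of_bounded (M := M)
              (by rw [Real.volume_Ioc]; exact ENNReal.ofReal_ne_top)
              (Complex.measurable_ofReal.comp hb).norm.aestronglyMeasurable
              (Eventually.of_forall fun θ => ?_)
            rw [norm_norm, Complex.norm_real, Real.norm_eq_abs]
            exact hbM' θ
          · exact integrableOn_const (by rw [Real.volume_Ioc]; exact ENNReal.ofReal_ne_top)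
          · rw [Complex.norm_real, Real.norm_eq_abs]
            exact hbM' θ
        refine h5.trans_eq ?_
        rw [setIntegral_const, Real.volume_real_Ioc_of_le Real.two_pi_pos.le, sub_zero,
          smul_eq_mul]
      have h6 : ‖ξ‖ ≤ |A| + 1 := by
        have := le_abs_self A
        linarith
      calc ‖smM c (fun θ => (b θ : ℂ)) ξ‖ * ‖1 - 𝓕 (phr φ r) ξ‖
          ≤ (2 * π * M) * (2 * π * r * ‖ξ‖) :=
            mul_le_mul h4 h3 (norm_nonneg _) (by positivity)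
        _ ≤ (2 * π * (M + 1)) * (2 * π * r₀ * (|A| + 1)) := by gcongr; linarith
        _ = s := by
          rw [hr₀]
          field_simp
  calc ‖smM c (fun θ => (b θ : ℂ)) ξ * (1 - 𝓕 (phr φ r) ξ)‖ₑ ^ 2
      ≤ (ENNReal.ofReal s) ^ 2 := by
        gcongr
        rw [← ofReal_norm]
        exact ENNReal.ofReal_le_ofReal h2
    _ = ENNReal.ofReal ε := by
        rw [← ENNReal.ofReal_pow hs0.le, hss]

end Pool.Agent.H24.Tri
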