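import Pool.Agent.H24.Tri.Defs

/-!
# Project TRI, module SM, part C: Plancherel for functions in `L¹ ∩ L²`
-/

set_option autoImplicit false

open MeasureTheory Set Complex Metric Filter Topology SchwartzMap
open scoped Real ENNReal NNReal FourierTransform ComplexConjugate

namespace Pool.Agent.H24.Tri

theorem sm_fourier_continuous (f : ℂ → ℂ) (h1 : Integrable f) : Continuous (𝓕 f) :=
  VectorFourier.fourierIntegral_continuous Real.continuous_fourierChar
    (by exact continuous_inner) h1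

theorem sm_fourier_flip (f : ℂ → ℂ) (h1 : Integrable f) (G : 𝓢(ℂ, ℂ)) :
    ∫ x, (𝓕 G) x * f x = ∫ x, G x * 𝓕 f x := by
  have e3 := VectorFourier.integral_fourierIntegral_smul_eq_flip (μ := (volume : Measure ℂ))
    (ν := (volume : Measure ℂ)) (L := innerₗ ℂ) (f := G) (g := f) Real.continuous_fourierChar
    (by exact continuous_inner) G.integrable h1
  simp only [smul_eq_mul, flip_innerₗ] at e3
  exact e3

/-- the `L²` Fourier transform is given by the integral for functions in `L¹ ∩ L²` -/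
theorem sm_fourier_ae (f : ℂ → ℂ) (h1 : Integrable f) (h2 : MemLp f 2)
    (FL : Lp ℂ 2 (volume : Measure ℂ)) (hFL : FL = 𝓕 (h2.toLp f)) :
    (FL : ℂ → ℂ) =ᵐ[volume] 𝓕 f := by
  have hcont : Continuous (𝓕 f) := sm_fourier_continuous f h1
  refine ae_eq_of_integral_contDiff_smul_eq ?_ hcont.locallyIntegrable ?_
  · exact (Lp.memLp _).locallyIntegrable (by norm_num)
  intro g hg hgs
  -- a Schwartz function
  have hgC : ContDiff ℝ ((⊤ : ℕ∞) : WithTop ℕ∞) (fun x => (g x : ℂ)) :=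
    Complex.ofRealCLM.contDiff.comp hg
  have hgsC : HasCompactSupport (fun x => (g x : ℂ)) := by
    exact hgs.comp_left (g := fun r : ℝ => (r : ℂ)) (by simp)
  set G : 𝓢(ℂ, ℂ) := hgsC.toSchwartzMap hgC with hG
  have hGa : ∀ x, G x = (g x : ℂ) := fun x => rfl
  have e1 := congrArg (fun T : 𝓢'(ℂ, ℂ) => T G)
    (Lp.fourier_toTemperedDistribution_eq (E := ℂ) (F := ℂ) (h2.toLp f))
  rw [← hFL] at e1
  simp only [TemperedDistribution.fourier_apply, Lp.toTemperedDistribution_apply] at e1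
  have e2 : ∫ x, (𝓕 G) x • (h2.toLp f) x = ∫ x, (𝓕 G) x * f x := by
    refine integral_congr_ae ?_
    filter_upwards [h2.coeFn_toLp] with x hx
    rw [hx, smul_eq_mul]
  rw [e2, sm_fourier_flip f h1 G] at e1
  have e4 : ∀ h : ℂ → ℂ, ∫ x, g x • h x = ∫ x, G x * h x := by
    intro h
    congr 1
  rw [e4, e4]
  exact e1.symm

theorem sm_plancherel (f : ℂ → ℂ) (h1 : Integrable f) (h2 : MemLp f 2) :
    ∫⁻ ξ, ‖𝓕 f ξ‖ₑ ^ 2 = ∫⁻ x, ‖f x‖ₑ ^ 2 := by
  obtain ⟨FL, hFL⟩ : ∃ FL : Lp ℂ 2 (volume : Measure ℂ), FL = 𝓕 (h2.toLp f) := ⟨_, rfl⟩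
  have h3 := sm_fourier_ae f h1 h2 FL hFL
  have h4 : ‖FL‖ = ‖h2.toLp f‖ := by
    rw [hFL]
    exact Lp.norm_fourier_eq _
  have h5 : eLpNorm FL 2 volume = eLpNorm f 2 volume := by
    rw [Lp.norm_def, Lp.norm_toLp] at h4
    have h6 : eLpNorm FL 2 volume ≠ ∞ := (Lp.memLp FL).eLpNorm_ne_top
    exact (ENNReal.toReal_eq_toReal_iff' h6 h2.eLpNorm_ne_top).1 h4
  have h6 : eLpNorm (𝓕 f) 2 volume = eLpNorm f 2 volume := by
    rw [← h5]
    exact (eLpNorm_congr_ae h3).symm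
  have key : ∀ g : ℂ → ℂ, ∫⁻ x, ‖g x‖ₑ ^ 2 = eLpNorm g 2 volume ^ 2 := by
    intro g
    rw [eLpNorm_eq_lintegral_rpow_enorm_toReal (by norm_num) (by norm_num)]
    simp only [ENNReal.toReal_ofNat, one_div]
    rw [← ENNReal.rpow_natCast, ← ENNReal.rpow_mul]
    norm_num
  rw [key, key, h6]

end Pool.Agent.H24.Tri
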