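import Pool.Agent.H98.Tri.SMB
import Pool.Agent.H98.Tri.SMC

/-!
# Project TRI, module SM: smoothing of circle convolutions
-/

set_option autoImplicit false

open MeasureTheory Set Complex Metric Filter Topology
open scoped Real ENNReal NNReal FourierTransform ComplexConjugate Convolution

namespace Pool.Agent.H24.Tri

/-- weighted circle convolution -/
noncomputable def circConv (b : ℝ → ℝ) (c : ℂ) (F : ℂ → ℂ) (x : ℂ) : ℂ :=
  ∫ θ in Ioc 0 (2 * π), (b θ : ℂ) * F (x + c * cis θ)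

/-- mollification `F * φ_r` -/
noncomputable def moll (φ : ℂ → ℝ) (r : ℝ) (F : ℂ → ℂ) (x : ℂ) : ℂ :=
  ∫ y, (((r ^ 2)⁻¹ * φ (y / (r : ℂ)) : ℝ) : ℂ) * F (x - y)

theorem sm_memLp {f : ℂ → ℂ} (hf : Integrable f) (K : ℝ) (hK : ∀ x, ‖f x‖ ≤ K) : MemLp f 2 := by
  rw [memLp_two_iff_integrable_sq_norm hf.aestronglyMeasurable]
  refine (hf.norm.const_mul K).mono' (hf.aestronglyMeasurable.norm.pow 2)
    (Eventually.of_forall fun x => ?_)
  rw [Real.norm_eq_abs, abs_of_nonneg (by positivity), sq]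
  exact mul_le_mul_of_nonneg_right (hK x) (norm_nonneg _)

theorem circ_integrable_prod (b : ℝ → ℝ) (hb : Measurable b) (M : ℝ) (hbM : ∀ θ, |b θ| ≤ M)
    (c : ℂ) (G : ℂ → ℂ) (hG : Measurable G) (hGi : Integrable G) :
    Integrable (fun p : ℂ × ℝ => (b p.2 : ℂ) * G (p.1 + c * cis p.2))
      ((volume : Measure ℂ).prod (volume.restrict (Ioc 0 (2 * π)))) := by
  have hm : Measurable (fun p : ℂ × ℝ => (b p.2 : ℂ) * G (p.1 + c * cis p.2)) := by
    refine (Complex.measurable_ofReal.comp (hb.comp measurable_snd)).mul (hG.comp ?_)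
    exact measurable_fst.add ((cis_continuous.measurable.comp measurable_snd).const_mul c)
  rw [integrable_prod_iff' hm.aestronglyMeasurable]
  constructor
  · refine Eventually.of_forall fun θ => ?_
    have h0 := (hGi.comp_add_right (c * cis θ)).const_mul (b θ : ℂ)
    exact h0
  · have h1 : ∀ θ : ℝ, ∫ x, ‖(b θ : ℂ) * G (x + c * cis θ)‖ = |b θ| * ∫ x, ‖G x‖ := by
      intro θ
      simp_rw [norm_mul, Complex.norm_real, Real.norm_eq_abs]
      rw [integral_const_mul, integral_add_right_eq_self (fun x => ‖G x‖)]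
    simp_rw [h1]
    refine Integrable.mul_const ?_ _
    refine Measure.integrableOn_of_bounded (M := M)
      (by rw [Real.volume_Ioc]; exact ENNReal.ofReal_ne_top)
      (hb.abs).aestronglyMeasurable (Eventually.of_forall fun θ => ?_)
    rw [Real.norm_eq_abs, abs_abs]
    exact hbM θ

theorem circConv_integrable (b : ℝ → ℝ) (hb : Measurable b) (M : ℝ) (hbM : ∀ θ, |b θ| ≤ M)
    (c : ℂ) (G : ℂ → ℂ) (hG : Measurable G) (hGi : Integrable G) :
    Integrable (circConv b c G) :=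
  (circ_integrable_prod b hb M hbM c G hG hGi).integral_prod_left

theorem circConv_bound (b : ℝ → ℝ) (M : ℝ) (hbM : ∀ θ, |b θ| ≤ M)
    (c : ℂ) (G : ℂ → ℂ) (K : ℝ) (hK : ∀ x, ‖G x‖ ≤ K) (x : ℂ) :
    ‖circConv b c G x‖ ≤ M * K * (2 * π) := by
  have hM : 0 ≤ M := (abs_nonneg _).trans (hbM 0)
  unfold circConv
  have h1 := norm_setIntegral_le_of_norm_le_const (μ := (volume : Measure ℝ)) (s := Ioc 0 (2 * π))
    (f := fun θ => (b θ : ℂ) * G (x + c * cis θ)) (C := M * K)
    (by rw [Real.volume_Ioc]; exact ENNReal.ofReal_lt_top) (fun θ _ => ?_)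
  · rw [Real.volume_real_Ioc_of_le Real.two_pi_pos.le, sub_zero] at h1
    exact h1
  · rw [norm_mul, Complex.norm_real, Real.norm_eq_abs]
    exact mul_le_mul (hbM θ) (hK _) (norm_nonneg _) hM

theorem circConv_fourier (b : ℝ → ℝ) (hb : Measurable b) (M : ℝ) (hbM : ∀ θ, |b θ| ≤ M)
    (c : ℂ) (G : ℂ → ℂ) (hG : Measurable G) (hGi : Integrable G) (ξ : ℂ) :
    𝓕 (circConv b c G) ξ = smM c (fun θ => (b θ : ℂ)) ξ * 𝓕 G ξ := by
  rw [Real.fourier_eq]
  have h1 : ∀ v : ℂ, (𝐞 (-inner ℝ v ξ) : Circle) • circConv b c G v =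
      ∫ θ in Ioc 0 (2 * π), ((𝐞 (-inner ℝ v ξ) : Circle) : ℂ) *
        ((b θ : ℂ) * G (v + c * cis θ)) := by
    intro v
    rw [integral_const_mul, Circle.smul_def, smul_eq_mul]
    rfl
  simp_rw [h1]
  rw [integral_integral_swap]
  · unfold smM
    rw [← integral_mul_const]
    congr 1
    funext θ
    have h2 : ∀ v : ℂ, ((𝐞 (-inner ℝ v ξ) : Circle) : ℂ) * ((b θ : ℂ) * G (v + c * cis θ)) =
        (b θ : ℂ) * ((𝐞 (inner ℝ (c * cis θ) ξ) : Circle) : ℂ) *
          (((𝐞 (-inner ℝ (v + c * cis θ) ξ) : Circle) : ℂ) * G (v + c * cis θ)) := by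
      intro v
      have h3 : (𝐞 (-inner ℝ v ξ) : Circle) =
          𝐞 (inner ℝ (c * cis θ) ξ) * 𝐞 (-inner ℝ (v + c * cis θ) ξ) := by
        rw [← AddChar.map_add_eq_mul]
        congr 1
        rw [inner_add_left]
        ring
      rw [h3]
      push_cast
      ring
    simp_rw [h2]
    rw [integral_const_mul, integral_add_right_eq_self
      (fun v => ((𝐞 (-inner ℝ v ξ) : Circle) : ℂ) * G v), Real.fourier_eq]
    rfl
  · have h4 := circ_integrable_prod b hb M hbM c G hG hGi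
    refine h4.bdd_mul (c := 1) ?_ (Eventually.of_forall fun p => (Circle.norm_coe _).le)
    have : Continuous fun p : ℂ × ℝ => ((𝐞 (-inner ℝ p.1 ξ) : Circle) : ℂ) := by
      refine continuous_subtype_val.comp (Real.continuous_fourierChar.comp ?_)
      exact (continuous_fst.inner continuous_const).neg
    exact this.aestronglyMeasurable

end Pool.Agent.H24.Tri
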