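import Pool.Agent.H24.Tri.Defs

/-!
# Project TRI, module SM, part A: decay of the Fourier transform of a density on the circle
-/

set_option autoImplicit false

open MeasureTheory Set Complex Metric Filter Topology
open scoped Real ENNReal NNReal FourierTransform ComplexConjugate

namespace Pool.Agent.H24.Tri

/-- `e^{2πi x cos θ}` -/
noncomputable def smE (x θ : ℝ) : ℂ :=
  Complex.exp (((2 * π * x * Real.cos θ : ℝ) : ℂ) * Complex.I)

theorem smE_norm (x θ : ℝ) : ‖smE x θ‖ = 1 := Complex.norm_exp_ofReal_mul_I _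

theorem smE_continuous (x : ℝ) : Continuous (smE x) := by
  unfold smE
  fun_prop

theorem sm_rl1 (G : ℝ → ℂ) :
    Tendsto (fun x : ℝ => ∫ θ in Ioo 0 π, G θ * smE x θ) (cocompact ℝ) (𝓝 0) := by
  set f : ℝ → ℂ := (Real.cos '' (Ioo 0 π)).indicator fun t =>
    (((Real.sqrt (1 - t ^ 2))⁻¹ : ℝ) : ℂ) * G (Real.arccos t) with hf
  have h1 := Real.tendsto_integral_exp_smul_cocompact f
  have h2 : Tendsto (fun x : ℝ => -x) (cocompact ℝ) (cocompact ℝ) :=
    (Homeomorph.neg ℝ).isClosedEmbedding.tendsto_cocompact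
  refine (h1.comp h2).congr fun x => ?_
  have hinj : InjOn Real.cos (Ioo 0 π) := Real.injOn_cos.mono Ioo_subset_Icc_self
  have hmeas : MeasurableSet (Real.cos '' (Ioo 0 π)) :=
    measurableSet_Ioo.image_of_continuousOn_injOn Real.continuous_cos.continuousOn hinj
  have h3 : ∀ v : ℝ, (𝐞 (-(v * -x)) : Circle) • f v =
      (Real.cos '' (Ioo 0 π)).indicator (fun t => (𝐞 (t * x) : Circle) •
        ((((Real.sqrt (1 - t ^ 2))⁻¹ : ℝ) : ℂ) * G (Real.arccos t))) v := by
    intro v
    rw [hf]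
    by_cases hv : v ∈ Real.cos '' (Ioo 0 π)
    · rw [indicator_of_mem hv, indicator_of_mem hv]
      simp
    · rw [indicator_of_notMem hv, indicator_of_notMem hv, smul_zero]
  simp only [Function.comp]
  simp_rw [h3]
  rw [integral_indicator hmeas, integral_image_eq_integral_abs_deriv_smul measurableSet_Ioo
    (fun θ _ => (Real.hasDerivAt_cos θ).hasDerivWithinAt) hinj]
  refine setIntegral_congr_fun measurableSet_Ioo fun θ hθ => ?_
  have hs : 0 < Real.sin θ := Real.sin_pos_of_pos_of_lt_pi hθ.1 hθ.2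
  have h4 : Real.sqrt (1 - Real.cos θ ^ 2) = Real.sin θ := by
    rw [← Real.sin_sq, Real.sqrt_sq hs.le]
  rw [h4, Real.arccos_cos hθ.1.le hθ.2.le, abs_neg, abs_of_pos hs, Circle.smul_def,
    Real.fourierChar_apply, smE, Complex.real_smul, smul_eq_mul]
  have h5 : (2 * π * (Real.cos θ * x) : ℝ) = (2 * π * x * Real.cos θ : ℝ) := by ring
  rw [h5]
  push_cast
  have h6 : ((Real.sin θ : ℝ) : ℂ) ≠ 0 := by exact_mod_cast hs.ne'
  push_cast at h6
  field_simp

theorem sm_rl2 (G : ℝ → ℂ) (hG : Continuous G) :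
    Tendsto (fun x : ℝ => ∫ θ in (0 : ℝ)..2 * π, G θ * smE x θ) (cocompact ℝ) (𝓝 0) := by
  have hpi := Real.pi_pos
  have h1 := (sm_rl1 G).add (sm_rl1 fun θ => G (2 * π - θ))
  rw [add_zero] at h1
  refine h1.congr fun x => ?_
  have hc : Continuous (fun θ => G θ * smE x θ) := hG.mul (smE_continuous x)
  rw [← intervalIntegral.integral_add_adjacent_intervals (b := π)
    (hc.intervalIntegrable _ _) (hc.intervalIntegrable _ _)]
  congr 1
  · rw [intervalIntegral.integral_of_le hpi.le, integral_Ioc_eq_integral_Ioo]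
  · have h2 := intervalIntegral.integral_comp_sub_left (a := 0) (b := π)
      (fun θ => G θ * smE x θ) (2 * π)
    rw [sub_zero, show 2 * π - π = π by ring] at h2
    rw [← h2, intervalIntegral.integral_of_le hpi.le, integral_Ioc_eq_integral_Ioo]
    refine setIntegral_congr_fun measurableSet_Ioo fun θ _ => ?_
    simp only [smE]
    rw [show Real.cos (2 * π - θ) = Real.cos θ by
      rw [Real.cos_two_pi_sub]]

/-- `∫ e^{ikθ} e(x cos θ)` -/
noncomputable def smJ (k : ℤ) (x : ℝ) : ℂ :=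
  ∫ θ in (0 : ℝ)..2 * π, Complex.exp (k * θ * Complex.I) * smE x θ

theorem smJ_tendsto (k : ℤ) : Tendsto (smJ k) (cocompact ℝ) (𝓝 0) :=
  sm_rl2 _ (by fun_prop)

theorem smJ_rot (k : ℤ) (x γ : ℝ) :
    ∫ θ in (0 : ℝ)..2 * π, Complex.exp (k * θ * Complex.I) * smE x (θ + γ) =
      Complex.exp (-(k * γ * Complex.I)) * smJ k x := by
  have h1 : ∀ θ : ℝ, Complex.exp (k * θ * Complex.I) * smE x (θ + γ) =
      Complex.exp (-(k * γ * Complex.I)) *
        (Complex.exp (k * ((θ + γ : ℝ) : ℂ) * Complex.I) * smE x (θ + γ)) := by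
    intro θ
    rw [← mul_assoc, ← Complex.exp_add]
    congr 2
    push_cast
    ring
  simp_rw [h1]
  rw [intervalIntegral.integral_const_mul]
  congr 1
  rw [intervalIntegral.integral_comp_add_right
    (fun θ : ℝ => Complex.exp (k * (θ : ℂ) * Complex.I) * smE x θ) γ]
  have hper : Function.Periodic
      (fun θ : ℝ => Complex.exp (k * (θ : ℂ) * Complex.I) * smE x θ) (2 * π) := by
    intro θ
    simp only [smE, Real.cos_add_two_pi]
    congr 1
    have : (k : ℂ) * ((θ + 2 * π : ℝ) : ℂ) * Complex.I =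
        (k : ℂ) * θ * Complex.I + k * (2 * π * Complex.I) := by
      push_cast
      ring
    rw [this, Complex.exp_add, Complex.exp_int_mul_two_pi_mul_I, mul_one]
  have := hper.intervalIntegral_add_eq γ 0
  rw [zero_add] at this
  rw [zero_add, add_comm (2 * π) γ, this]
  rfl

theorem sm_inner (c ξ : ℂ) (θ : ℝ) : inner ℝ (c * cis θ) ξ =
    ‖c‖ * ‖ξ‖ * Real.cos (θ + Complex.arg (c * conj ξ)) := by
  have h1 : inner ℝ (c * cis θ) ξ = (c * conj ξ * cis θ).re := by
    rw [Complex.inner, ← Complex.conj_re]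
    simp only [map_mul, Complex.conj_conj]
    ring_nf
  have h2 := Complex.norm_mul_exp_arg_mul_I (c * conj ξ)
  rw [h1]
  conv_lhs => rw [← h2]
  rw [cis, mul_assoc, ← Complex.exp_add, ← add_mul, norm_mul, Complex.norm_conj,
    Complex.re_ofReal_mul, ← Complex.ofReal_add, Complex.exp_ofReal_mul_I_re, add_comm]

end Pool.Agent.H24.Tri
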