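import Pool.Agent.H98.Tri.SMA

/-!
# Project TRI, module SM, part B: approximation by trigonometric polynomials and decay
-/

set_option autoImplicit false

open MeasureTheory Set Complex Metric Filter Topology
open scoped Real ENNReal NNReal FourierTransform ComplexConjugate

namespace Pool.Agent.H24.Tri

theorem sm_coeFn_sum {α ι : Type*} [MeasurableSpace α] {μ : Measure α} (s : Finset ι)
    (f : ι → Lp ℂ 1 μ) :
    ((∑ i ∈ s, f i : Lp ℂ 1 μ) : α → ℂ) =ᵐ[μ] fun t => ∑ i ∈ s, (f i : α → ℂ) t := by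
  classical
  induction s using Finset.induction_on with
  | empty =>
    simp only [Finset.sum_empty]
    exact Lp.coeFn_zero ℂ 1 μ
  | insert i s hi ih =>
    rw [Finset.sum_insert hi]
    filter_upwards [Lp.coeFn_add (f i) (∑ j ∈ s, f j), ih] with t h1 h2
    rw [h1, Pi.add_apply, h2, Finset.sum_insert hi]

theorem sm_dense (b : ℝ → ℝ) (hb : Measurable b) (M : ℝ) (hbM : ∀ θ, |b θ| ≤ M) (δ : ℝ)
    (hδ : 0 < δ) : ∃ (s : Finset ℤ) (a : ℤ → ℂ),
      ∫ θ in Ioc 0 (2 * π), ‖(b θ : ℂ) - ∑ k ∈ s, a k * Complex.exp (k * θ * Complex.I)‖ ≤ δ := by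
  have hT : Fact (0 < 2 * π) := ⟨Real.two_pi_pos⟩
  have hpi := Real.pi_pos
  set B : AddCircle (2 * π) → ℂ := fun t =>
    ((b ((AddCircle.measurableEquivIoc (2 * π) 0 t : Ioc (0 : ℝ) (0 + 2 * π)) : ℝ) : ℝ) : ℂ) with hB
  have hBm : Measurable B := by
    refine Complex.measurable_ofReal.comp (hb.comp ?_)
    exact measurable_subtype_coe.comp (AddCircle.measurableEquivIoc (2 * π) 0).measurable
  have hBL : MemLp B 1 (AddCircle.haarAddCircle (T := 2 * π)) := by
    refine MemLp.of_bound hBm.aestronglyMeasurable M (Eventually.of_forall fun t => ?_)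
    rw [hB]
    simp only [Complex.norm_real, Real.norm_eq_abs]
    exact hbM _
  have h1 := span_fourierLp_closure_eq_top (T := 2 * π) (p := 1) (by simp)
  have h2 : hBL.toLp B ∈ (Submodule.span ℂ (range (@fourierLp (2 * π) hT 1 _))).topologicalClosure := by
    rw [h1]; trivial
  have h3 : hBL.toLp B ∈ closure ((Submodule.span ℂ (range (@fourierLp (2 * π) hT 1 _)) :
      Submodule ℂ _) : Set (Lp ℂ 1 (AddCircle.haarAddCircle (T := 2 * π)))) := h2
  obtain ⟨p, hp, hdist⟩ := Metric.mem_closure_iff.1 h3 (δ / (2 * π)) (by positivity)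
  have hp' : p ∈ Submodule.span ℂ (range (@fourierLp (2 * π) hT 1 _)) := hp
  obtain ⟨cc, hcc⟩ := (Finsupp.mem_span_range_iff_exists_finsupp).1 hp'
  refine ⟨cc.support, cc, ?_⟩
  have h4 : (p : AddCircle (2 * π) → ℂ) =ᵐ[AddCircle.haarAddCircle]
      fun t => ∑ k ∈ cc.support, cc k * fourier k t := by
    rw [← hcc, Finsupp.sum]
    refine (sm_coeFn_sum cc.support (fun i => cc i • @fourierLp (2 * π) hT 1 _ i)).trans ?_
    have h5 : ∀ᵐ t ∂(AddCircle.haarAddCircle (T := 2 * π)), ∀ k : ℤ,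
        ((cc k • @fourierLp (2 * π) hT 1 _ k : Lp ℂ 1 _) : AddCircle (2 * π) → ℂ) t =
          cc k * fourier k t := by
      rw [ae_all_iff]
      intro k
      filter_upwards [Lp.coeFn_smul (cc k) (@fourierLp (2 * π) hT 1 _ k),
        coeFn_fourierLp (T := 2 * π) 1 k] with t h6 h7
      rw [h6, Pi.smul_apply, h7, smul_eq_mul]
    filter_upwards [h5] with t ht
    exact Finset.sum_congr rfl fun k _ => ht k
  have h5 : ∫ t : AddCircle (2 * π), ‖B t - ∑ k ∈ cc.support, cc k * fourier k t‖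
      ∂AddCircle.haarAddCircle < δ / (2 * π) := by
    have h6 : dist (hBL.toLp B) p = ∫ t : AddCircle (2 * π),
        ‖B t - ∑ k ∈ cc.support, cc k * fourier k t‖ ∂AddCircle.haarAddCircle := by
      rw [dist_eq_norm, L1.norm_eq_integral_norm]
      refine integral_congr_ae ?_
      filter_upwards [Lp.coeFn_sub (hBL.toLp B) p, hBL.coeFn_toLp, h4] with t h7 h8 h9
      rw [h7, Pi.sub_apply, h8, h9]
    rw [← h6]
    exact hdist
  have h6 : ∫ θ in Ioc 0 (2 * π), ‖(b θ : ℂ) - ∑ k ∈ cc.support,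
      cc k * Complex.exp (k * θ * Complex.I)‖ =
      2 * π * ∫ t : AddCircle (2 * π), ‖B t - ∑ k ∈ cc.support, cc k * fourier k t‖
        ∂AddCircle.haarAddCircle := by
    have h7 := AddCircle.integral_preimage (2 * π) 0
      (fun t => ‖B t - ∑ k ∈ cc.support, cc k * fourier k t‖)
    rw [AddCircle.volume_eq_smul_haarAddCircle, integral_smul_measure,
      ENNReal.toReal_ofReal (by positivity), smul_eq_mul, zero_add] at h7
    rw [← h7]
    refine setIntegral_congr_fun measurableSet_Ioc fun θ hθ => ?_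
    have hBθ : B (θ : AddCircle (2 * π)) = (b θ : ℂ) := by
      have hθ' : θ ∈ Ioc (0 : ℝ) (0 + 2 * π) := by rwa [zero_add]
      have h8 : ((AddCircle.measurableEquivIoc (2 * π) 0 (θ : AddCircle (2 * π)) :
          Ioc (0 : ℝ) (0 + 2 * π)) : ℝ) = θ := AddCircle.equivIoc_coe_of_mem hθ'
      rw [hB]
      simp only
      rw [h8]
    rw [hBθ]
    congr 2
    refine Finset.sum_congr rfl fun k _ => ?_
    rw [fourier_coe_apply]
    congr 2
    push_cast
    have : (π : ℂ) ≠ 0 := by exact_mod_cast hpi.ne'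
    field_simp
  rw [h6]
  have h7 : 2 * π * (δ / (2 * π)) = δ := by field_simp
  calc _ ≤ 2 * π * (δ / (2 * π)) := mul_le_mul_of_nonneg_left h5.le (by positivity)
    _ = δ := h7

/-- the Fourier transform of the density `g` on the circle of radius `|c|` -/
noncomputable def smM (c : ℂ) (g : ℝ → ℂ) (ξ : ℂ) : ℂ :=
  ∫ θ in Ioc 0 (2 * π), g θ * ((𝐞 (inner ℝ (c * cis θ) ξ) : Circle) : ℂ)

theorem cis_continuous : Continuous cis := by
  unfold cis
  fun_prop

theorem sm_char_continuous (c ξ : ℂ) :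
    Continuous fun θ : ℝ => ((𝐞 (inner ℝ (c * cis θ) ξ) : Circle) : ℂ) := by
  have h1 : Continuous fun θ : ℝ => inner ℝ (c * cis θ) ξ :=
    (continuous_const.mul cis_continuous).inner continuous_const
  exact continuous_subtype_val.comp (Real.continuous_fourierChar.comp h1)

theorem smM_le (c : ℂ) (g : ℝ → ℂ) (ξ : ℂ) : ‖smM c g ξ‖ ≤ ∫ θ in Ioc 0 (2 * π), ‖g θ‖ := by
  unfold smM
  refine (norm_integral_le_integral_norm _).trans_eq ?_
  congr 1
  funext θ
  rw [norm_mul, Circle.norm_coe, mul_one]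

theorem smM_exp (c : ℂ) (k : ℤ) (ξ : ℂ) :
    ‖smM c (fun θ => Complex.exp (k * θ * Complex.I)) ξ‖ = ‖smJ k (‖c‖ * ‖ξ‖)‖ := by
  have h1 : smM c (fun θ => Complex.exp (k * θ * Complex.I)) ξ =
      ∫ θ in (0 : ℝ)..2 * π, Complex.exp (k * θ * Complex.I) *
        smE (‖c‖ * ‖ξ‖) (θ + Complex.arg (c * conj ξ)) := by
    rw [intervalIntegral.integral_of_le Real.two_pi_pos.le]
    unfold smM
    congr 1
    funext θ
    rw [sm_inner, Real.fourierChar_apply, smE]
    congr 2
    push_cast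
    ring
  rw [h1, smJ_rot, norm_mul]
  have h2 : -((k : ℂ) * (Complex.arg (c * conj ξ) : ℂ) * Complex.I) =
      ((-(k * Complex.arg (c * conj ξ)) : ℝ) : ℂ) * Complex.I := by
    push_cast
    ring
  rw [h2, Complex.norm_exp_ofReal_mul_I, one_mul]

theorem smM_exp_tendsto (c : ℂ) (hc : c ≠ 0) (k : ℤ) :
    Tendsto (fun ξ => ‖smM c (fun θ => Complex.exp (k * θ * Complex.I)) ξ‖) (cocompact ℂ)
      (𝓝 0) := by
  simp_rw [smM_exp]
  have h1 : Tendsto (fun ξ : ℂ => ‖c‖ * ‖ξ‖) (cocompact ℂ) (cocompact ℝ) := by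
    have h2 : Tendsto (fun ξ : ℂ => ‖ξ‖) (cocompact ℂ) atTop := tendsto_norm_cocompact_atTop
    have h3 : Tendsto (fun ξ : ℂ => ‖c‖ * ‖ξ‖) (cocompact ℂ) atTop :=
      h2.const_mul_atTop (norm_pos_iff.2 hc)
    exact h3.mono_right atTop_le_cocompact
  have h4 := ((smJ_tendsto k).comp h1).norm
  simpa using h4

theorem smM_tendsto (b : ℝ → ℝ) (hb : Measurable b) (M : ℝ) (hbM : ∀ θ, |b θ| ≤ M) (c : ℂ)
    (hc : c ≠ 0) : Tendsto (smM c fun θ => (b θ : ℂ)) (cocompact ℂ) (𝓝 0) := by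
  rw [Metric.tendsto_nhds]
  intro δ hδ
  obtain ⟨s, a, hsa⟩ := sm_dense b hb M hbM (δ / 3) (by positivity)
  have hint1 : ∀ ξ, IntegrableOn (fun θ => (b θ : ℂ) *
      ((𝐞 (inner ℝ (c * cis θ) ξ) : Circle) : ℂ)) (Ioc 0 (2 * π)) := by
    intro ξ
    refine Measure.integrableOn_of_bounded (M := M)
      (by rw [Real.volume_Ioc]; exact ENNReal.ofReal_ne_top)
      ((Complex.measurable_ofReal.comp hb).aestronglyMeasurable.mul
        (sm_char_continuous c ξ).aestronglyMeasurable) (Eventually.of_forall fun θ => ?_)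
    rw [norm_mul, Circle.norm_coe, mul_one, Complex.norm_real, Real.norm_eq_abs]
    exact hbM θ
  have hint2 : ∀ k : ℤ, ∀ ξ, IntegrableOn (fun θ : ℝ => Complex.exp (k * θ * Complex.I) *
      ((𝐞 (inner ℝ (c * cis θ) ξ) : Circle) : ℂ)) (Ioc 0 (2 * π)) := by
    intro k ξ
    have : Continuous (fun θ : ℝ => Complex.exp (k * θ * Complex.I) *
      ((𝐞 (inner ℝ (c * cis θ) ξ) : Circle) : ℂ)) := by
      refine Continuous.mul (by fun_prop) (sm_char_continuous c ξ)
    exact (this.integrableOn_Icc).mono_set Ioc_subset_Icc_self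
  -- decomposition
  have hdec : ∀ ξ, ‖smM c (fun θ => (b θ : ℂ)) ξ‖ ≤ δ / 3 +
      ∑ k ∈ s, ‖a k‖ * ‖smM c (fun θ => Complex.exp (k * θ * Complex.I)) ξ‖ := by
    intro ξ
    have h1 : smM c (fun θ => (b θ : ℂ)) ξ =
        smM c (fun θ => (b θ : ℂ) - ∑ k ∈ s, a k * Complex.exp (k * θ * Complex.I)) ξ +
        ∑ k ∈ s, a k * smM c (fun θ => Complex.exp (k * θ * Complex.I)) ξ := by
      unfold smM
      simp_rw [← integral_const_mul]
      rw [← integral_finsetSum s (fun k _ => ((hint2 k ξ).const_mul (a k))), ← integral_add]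
      · congr 1
        funext θ
        rw [sub_mul, Finset.sum_mul]
        simp_rw [mul_assoc]
        ring
      · have h3 : IntegrableOn (fun θ : ℝ => (b θ : ℂ) * ((𝐞 (inner ℝ (c * cis θ) ξ) : Circle) : ℂ) -
            ∑ k ∈ s, a k * (Complex.exp (k * θ * Complex.I) *
              ((𝐞 (inner ℝ (c * cis θ) ξ) : Circle) : ℂ))) (Ioc 0 (2 * π)) :=
          (hint1 ξ).sub (integrable_finsetSum s fun k _ => (hint2 k ξ).const_mul (a k))
        refine h3.congr (Eventually.of_forall fun θ => ?_)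
        simp only
        rw [sub_mul, Finset.sum_mul]
        simp_rw [mul_assoc]
      · exact integrable_finsetSum s fun k _ => (hint2 k ξ).const_mul (a k)
    rw [h1]
    refine (norm_add_le _ _).trans (add_le_add ((smM_le c _ ξ).trans hsa) ?_)
    refine (norm_sum_le _ _).trans (Finset.sum_le_sum fun k _ => ?_)
    rw [norm_mul]
  have hlim : Tendsto (fun ξ => ∑ k ∈ s, ‖a k‖ *
      ‖smM c (fun θ => Complex.exp (k * θ * Complex.I)) ξ‖) (cocompact ℂ) (𝓝 0) := by
    have h1 : Tendsto (fun ξ => ∑ k ∈ s, ‖a k‖ *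
      ‖smM c (fun θ => Complex.exp (k * θ * Complex.I)) ξ‖) (cocompact ℂ)
        (𝓝 (∑ k ∈ s, ‖a k‖ * 0)) :=
      tendsto_finsetSum s fun k _ => (smM_exp_tendsto c hc k).const_mul _
    simpa using h1
  filter_upwards [(Metric.tendsto_nhds.1 hlim) (δ / 3) (by positivity)] with ξ hξ
  rw [dist_zero_right] at hξ ⊢
  have h2 := hdec ξ
  have h3 := (le_abs_self _).trans_lt hξ
  linarith

end Pool.Agent.H24.Tri
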