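import Pool.Agent.H98.Tri.SM0

/-!
# Project TRI, module SM, part D: the mollifier
-/

set_option autoImplicit false

open MeasureTheory Set Complex Metric Filter Topology
open scoped Real ENNReal NNReal FourierTransform ComplexConjugate Convolution

namespace Pool.Agent.H24.Tri

/-- the scaled mollifier -/
noncomputable def phr (φ : ℂ → ℝ) (r : ℝ) (y : ℂ) : ℂ := (((r ^ 2)⁻¹ * φ (y / (r : ℂ)) : ℝ) : ℂ)

theorem phr_zero (φ : ℂ → ℝ) (hφs : ∀ x, 1 ≤ ‖x‖ → φ x = 0) (r : ℝ) (hr : 0 < r) (y : ℂ)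
    (hy : r ≤ ‖y‖) : phr φ r y = 0 := by
  unfold phr
  rw [hφs, mul_zero, Complex.ofReal_zero]
  rw [norm_div, Complex.norm_real, Real.norm_eq_abs, abs_of_pos hr, le_div_iff₀ hr, one_mul]
  exact hy

theorem phr_continuous (φ : ℂ → ℝ) (hφ : Continuous φ) (r : ℝ) : Continuous (phr φ r) := by
  unfold phr
  exact Complex.continuous_ofReal.comp ((hφ.comp (continuous_id.div_const _)).const_mul _)

theorem phr_integrable (φ : ℂ → ℝ) (hφ : Continuous φ) (hφs : ∀ x, 1 ≤ ‖x‖ → φ x = 0) (r : ℝ)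
    (hr : 0 < r) : Integrable (phr φ r) := by
  refine (phr_continuous φ hφ r).integrable_of_hasCompactSupport ?_
  refine HasCompactSupport.of_support_subset_isCompact (isCompact_closedBall (0 : ℂ) r) ?_
  intro y hy
  by_contra h
  apply hy
  refine phr_zero φ hφs r hr y ?_
  rw [mem_closedBall_zero_iff, not_le] at h
  exact h.le

theorem phr_norm (φ : ℂ → ℝ) (hφ0 : ∀ x, 0 ≤ φ x) (r : ℝ) (y : ℂ) :
    ‖phr φ r y‖ = (r ^ 2)⁻¹ * φ (y / (r : ℂ)) := by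
  unfold phr
  rw [Complex.norm_real, Real.norm_eq_abs, abs_of_nonneg]
  exact mul_nonneg (by positivity) (hφ0 _)

theorem phr_int_real (φ : ℂ → ℝ) (hφ1 : ∫ x, φ x = 1) (r : ℝ) (hr : 0 < r) :
    ∫ y : ℂ, (r ^ 2)⁻¹ * φ (y / (r : ℂ)) = 1 := by
  rw [integral_const_mul]
  have h1 : ∀ y : ℂ, φ (y / (r : ℂ)) = φ (r⁻¹ • y) := by
    intro y
    congr 1
    rw [Complex.real_smul, Complex.ofReal_inv, div_eq_inv_mul]
  simp_rw [h1]
  rw [Measure.integral_comp_inv_smul_of_nonneg _ _ hr.le, hφ1, Complex.finrank_real_complex,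
    smul_eq_mul, mul_one, inv_mul_cancel₀ (by positivity)]

theorem phr_integral (φ : ℂ → ℝ) (hφ1 : ∫ x, φ x = 1) (r : ℝ) (hr : 0 < r) :
    ∫ y : ℂ, phr φ r y = 1 := by
  unfold phr
  rw [integral_complex_ofReal, phr_int_real φ hφ1 r hr, Complex.ofReal_one]

theorem phr_integral_norm (φ : ℂ → ℝ) (hφ0 : ∀ x, 0 ≤ φ x) (hφ1 : ∫ x, φ x = 1) (r : ℝ)
    (hr : 0 < r) : ∫ y : ℂ, ‖phr φ r y‖ = 1 := by
  simp_rw [phr_norm φ hφ0]
  exact phr_int_real φ hφ1 r hr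

theorem phr_fourier_le (φ : ℂ → ℝ) (hφ0 : ∀ x, 0 ≤ φ x) (hφ1 : ∫ x, φ x = 1) (r : ℝ)
    (hr : 0 < r) (ξ : ℂ) : ‖𝓕 (phr φ r) ξ‖ ≤ 1 := by
  rw [Real.fourier_eq]
  refine (norm_integral_le_integral_norm _).trans_eq ?_
  simp_rw [Circle.norm_smul]
  exact phr_integral_norm φ hφ0 hφ1 r hr

theorem phr_fourier_near (φ : ℂ → ℝ) (hφ : Continuous φ) (hφ0 : ∀ x, 0 ≤ φ x)
    (hφ1 : ∫ x, φ x = 1) (hφs : ∀ x, 1 ≤ ‖x‖ → φ x = 0) (r : ℝ)
    (hr : 0 < r) (ξ : ℂ) : ‖1 - 𝓕 (phr φ r) ξ‖ ≤ 2 * π * r * ‖ξ‖ := by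
  have hpi := Real.pi_pos
  have hint := phr_integrable φ hφ hφs r hr
  have h1 : 1 - 𝓕 (phr φ r) ξ =
      ∫ y, (1 - ((𝐞 (-inner ℝ y ξ) : Circle) : ℂ)) * phr φ r y := by
    have h2 : Integrable fun y => ((𝐞 (-inner ℝ y ξ) : Circle) : ℂ) * phr φ r y := by
      refine hint.bdd_mul (c := 1) ?_ (Eventually.of_forall fun p => (Circle.norm_coe _).le)
      have : Continuous fun p : ℂ => ((𝐞 (-inner ℝ p ξ) : Circle) : ℂ) := by
        refine continuous_subtype_val.comp (Real.continuous_fourierChar.comp ?_)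
        exact (continuous_id.inner continuous_const).neg
      exact this.aestronglyMeasurable
    simp_rw [sub_mul, one_mul]
    rw [integral_sub hint h2, phr_integral φ hφ1 r hr, Real.fourier_eq]
    rfl
  rw [h1]
  refine (norm_integral_le_of_norm_le (hint.norm.const_mul (2 * π * r * ‖ξ‖))
    (Eventually.of_forall fun y => ?_)).trans_eq ?_
  · rw [norm_mul]
    rcases le_or_gt r ‖y‖ with hy | hy
    · rw [phr_zero φ hφs r hr y hy, norm_zero, mul_zero, mul_zero]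
    · refine mul_le_mul_of_nonneg_right ?_ (norm_nonneg _)
      rw [norm_sub_rev, Real.fourierChar_apply, mul_comm _ Complex.I]
      refine Real.norm_exp_I_mul_ofReal_sub_one_le.trans ?_
      rw [Real.norm_eq_abs, abs_mul, abs_of_pos (by positivity), abs_neg]
      have h3 : |inner ℝ y ξ| ≤ ‖y‖ * ‖ξ‖ := abs_real_inner_le_norm y ξ
      calc 2 * π * |inner ℝ y ξ| ≤ 2 * π * (‖y‖ * ‖ξ‖) := by gcongr
        _ ≤ 2 * π * (r * ‖ξ‖) := by gcongr
        _ = 2 * π * r * ‖ξ‖ := by ring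
  · rw [integral_const_mul, phr_integral_norm φ hφ0 hφ1 r hr, mul_one]

theorem moll_eq (φ : ℂ → ℝ) (r : ℝ) (F : ℂ → ℂ) :
    moll φ r F = (phr φ r) ⋆[ContinuousLinearMap.mul ℂ ℂ, volume] F := by
  funext x
  rw [convolution_def]
  rfl

theorem moll_measurable (φ : ℂ → ℝ) (hφ : Continuous φ) (r : ℝ) (F : ℂ → ℂ)
    (hF : Measurable F) : Measurable (moll φ r F) := by
  have h1 : Measurable fun p : ℂ × ℂ => phr φ r p.2 * F (p.1 - p.2) :=
    ((phr_continuous φ hφ r).measurable.comp measurable_snd).mul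
      (hF.comp (measurable_fst.sub measurable_snd))
  have h2 := h1.stronglyMeasurable.integral_prod_right' (ν := (volume : Measure ℂ))
  exact h2.measurable

theorem moll_integrable (φ : ℂ → ℝ) (hφ : Continuous φ) (hφs : ∀ x, 1 ≤ ‖x‖ → φ x = 0) (r : ℝ)
    (hr : 0 < r) (F : ℂ → ℂ) (hF : Integrable F) : Integrable (moll φ r F) := by
  rw [moll_eq]
  exact (phr_integrable φ hφ hφs r hr).integrable_convolution _ hF

theorem moll_bound (φ : ℂ → ℝ) (hφ : Continuous φ) (hφ0 : ∀ x, 0 ≤ φ x)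
    (hφ1 : ∫ x, φ x = 1) (hφs : ∀ x, 1 ≤ ‖x‖ → φ x = 0) (r : ℝ)
    (hr : 0 < r) (F : ℂ → ℂ) (K : ℝ) (hK : ∀ x, ‖F x‖ ≤ K) (x : ℂ) : ‖moll φ r F x‖ ≤ K := by
  unfold moll
  refine (norm_integral_le_of_norm_le ((phr_integrable φ hφ hφs r hr).norm.const_mul K)
    (Eventually.of_forall fun y => ?_)).trans_eq ?_
  · rw [norm_mul, mul_comm]
    exact mul_le_mul_of_nonneg_right (hK _) (norm_nonneg _)
  · rw [integral_const_mul, phr_integral_norm φ hφ0 hφ1 r hr, mul_one]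

theorem moll_fourier (φ : ℂ → ℝ) (hφ : Continuous φ) (hφs : ∀ x, 1 ≤ ‖x‖ → φ x = 0) (r : ℝ)
    (hr : 0 < r) (F : ℂ → ℂ) (hF : Integrable F) (ξ : ℂ) :
    𝓕 (moll φ r F) ξ = 𝓕 (phr φ r) ξ * 𝓕 F ξ := by
  rw [moll_eq]
  exact Real.fourier_mul_convolution_eq (phr_integrable φ hφ hφs r hr) hF ξ

theorem sm_fourier_sub (f g : ℂ → ℂ) (hf : Integrable f) (hg : Integrable g) (ξ : ℂ) :
    𝓕 (fun y => f y - g y) ξ = 𝓕 f ξ - 𝓕 g ξ := by
  rw [Real.fourier_eq, Real.fourier_eq, Real.fourier_eq]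
  simp_rw [smul_sub]
  refine integral_sub ?_ ?_
  · exact (Real.fourierIntegral_convergent_iff ξ).2 hf
  · exact (Real.fourierIntegral_convergent_iff ξ).2 hg

end Pool.Agent.H24.Tri
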